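import Pool.Agent.Q72.EG.Stm

/-! Project EG (helper72), job LIFT: over every admissible point there is a point of the variety on
the given end. -/

set_option autoImplicit false

namespace Pool.Agent.Q251.EG

open MvPolynomial Filter Topology Metric Pool.Agent.W996.EC Pool.Agent.Q72.EG

section gen

variable {n : ℕ} {E : Type} [Field E] [Algebra ℂ E] (G : Gen n E)

/-- the small function -/
noncomputable def gY : E := G.y G.i0 ^ G.ε

/-- the coordinates -/
noncomputable def gz : Option (Fin n) → E := oe (gY G) G.x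

theorem gY_ne : gY G ≠ 0 := zpow_ne_zero _ (G.hy _)

theorem vY_ne : G.O.valuation (gY G) ≠ 0 := (Valuation.ne_zero_iff _).2 (gY_ne G)

theorem aeval_z_ne {A : MvPolynomial (Option (Fin n)) ℂ} (h : ∃ j, ¬ G.P ∣ cf A j) :
    aeval (gz G) A ≠ 0 := by
  classical
  set j0 := Nat.find h with hj0
  have h1 : ¬ G.P ∣ cf A j0 := Nat.find_spec h
  have h2 : ∀ j < j0, G.P ∣ cf A j := fun j hj => by
    have := Nat.find_min h hj
    exact not_not.1 this
  intro h0
  unfold gz at h0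
  rw [aeval_oe_sum] at h0
  have hmem : j0 ∈ Finset.range ((optionEquivLeft ℂ (Fin n) A).natDegree + 1) := by
    rw [Finset.mem_range, Nat.lt_succ_iff]
    apply Polynomial.le_natDegree_of_ne_zero
    intro h3
    apply h1
    have h4 : cf A j0 = 0 := h3
    rw [h4]
    exact dvd_zero _
  rw [← Finset.add_sum_erase _ _ hmem] at h0
  have h3 : aeval G.x (cf A j0) * gY G ^ j0 = - ∑ j ∈ (Finset.range
      ((optionEquivLeft ℂ (Fin n) A).natDegree + 1)).erase j0, aeval G.x (cf A j) * gY G ^ j :=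
    eq_neg_of_add_eq_zero_left h0
  have h4 : G.O.valuation (aeval G.x (cf A j0) * gY G ^ j0) = G.O.valuation (gY G) ^ j0 := by
    rw [map_mul, map_pow, G.hO _ h1, one_mul]
  have h5 : G.O.valuation (∑ j ∈ (Finset.range
      ((optionEquivLeft ℂ (Fin n) A).natDegree + 1)).erase j0, aeval G.x (cf A j) * gY G ^ j) <
      G.O.valuation (gY G) ^ j0 := by
    apply Valuation.map_sum_lt _ (pow_ne_zero _ (vY_ne G))
    intro j hj
    have hjne := Finset.ne_of_mem_erase hj
    by_cases hP : G.P ∣ cf A j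
    · rw [(G.hx _).2 hP, zero_mul, map_zero]
      exact pow_pos (zero_lt_iff.2 (vY_ne G)) _
    · have hlt : j0 < j := by
        rcases lt_or_gt_of_ne hjne with h6 | h6
        · exact absurd (h2 j h6) hP
        · exact h6
      rw [map_mul, map_pow, G.hO _ hP, one_mul]
      exact pow_lt_pow_right_of_lt_one₀ (zero_lt_iff.2 (vY_ne G)) G.hY hlt
  rw [← h4, h3, Valuation.map_neg] at h5
  exact lt_irrefl _ h5

theorem aeval_z_zero {A : MvPolynomial (Option (Fin n)) ℂ} (h : aeval (gz G) A = 0) :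
    ∀ j, G.P ∣ cf A j := by
  by_contra hno
  push Not at hno
  exact aeval_z_ne G hno h

theorem exists_of_ne {A : MvPolynomial (Option (Fin n)) ℂ} (h : aeval (gz G) A ≠ 0) :
    ∃ j, ¬ G.P ∣ cf A j := by
  by_contra hno
  push Not at hno
  apply h
  unfold gz
  rw [aeval_oe_sum]
  exact Finset.sum_eq_zero fun j _ => by rw [(G.hx _).2 (hno j), zero_mul]

theorem pt_z {x : Fin n → ℂ} (Y : ℂ) (h : eval x G.P = 0) : oe Y x ∈ Pt (gz G) := by
  intro g hg
  rw [eval_oe_sum]
  refine Finset.sum_eq_zero fun j _ => ?_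
  obtain ⟨q, hq⟩ := aeval_z_zero G hg j
  rw [hq, map_mul, h, zero_mul, zero_mul]

end gen

theorem expand {E : Type} [Field E] [Algebra ℂ E] {n : ℕ}
    (A : Polynomial (MvPolynomial (Option (Fin n)) ℂ)) :
    ∃ M1 M2 : ℕ, (∀ b j, cf (A.coeff b) j ≠ 0 → j < M1 ∧ b < M2) ∧
      ∀ (Y Z : E) (x : Fin n → E),
        (A.map (aeval (oe Y x) : MvPolynomial (Option (Fin n)) ℂ →ₐ[ℂ] E).toRingHom).eval Z =
        ∑ e ∈ Finset.range M1 ×ˢ Finset.range M2, aeval x (cf (A.coeff e.2) e.1) * Y ^ e.1 * Z ^ e.2 := by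
  classical
  refine ⟨(Finset.range (A.natDegree + 1)).sup
    (fun b => (optionEquivLeft ℂ (Fin n) (A.coeff b)).natDegree) + 1, A.natDegree + 1, ?_, ?_⟩
  · intro b j hbj
    have hb : b < A.natDegree + 1 := by
      rw [Nat.lt_succ_iff]
      apply Polynomial.le_natDegree_of_ne_zero
      intro h
      apply hbj
      rw [h]
      unfold cf
      rw [map_zero, Polynomial.coeff_zero]
    refine ⟨?_, hb⟩
    rw [Nat.lt_succ_iff]
    have h1 : j ≤ (optionEquivLeft ℂ (Fin n) (A.coeff b)).natDegree :=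
      Polynomial.le_natDegree_of_ne_zero hbj
    exact h1.trans (Finset.le_sup (f := fun b => (optionEquivLeft ℂ (Fin n) (A.coeff b)).natDegree)
      (Finset.mem_range.2 hb))
  · intro Y Z x
    rw [Finset.sum_product_right, Polynomial.eval_map, Polynomial.eval₂_eq_sum_range]
    refine Finset.sum_congr rfl fun b hb => ?_
    have h1 : (aeval (oe Y x) : MvPolynomial (Option (Fin n)) ℂ →ₐ[ℂ] E).toRingHom (A.coeff b) =
        aeval (oe Y x) (A.coeff b) := rfl
    rw [h1, aeval_oe_sum, Finset.sum_mul]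
    apply Finset.sum_subset
    · intro j hj
      rw [Finset.mem_range, Nat.lt_succ_iff] at hj ⊢
      exact hj.trans (Finset.le_sup (f := fun b => (optionEquivLeft ℂ (Fin n) (A.coeff b)).natDegree) hb)
    · intro j _ hj
      rw [Finset.mem_range, Nat.lt_succ_iff, not_le] at hj
      have h2 : cf (A.coeff b) j = 0 := Polynomial.coeff_eq_zero_of_natDegree_lt hj
      rw [h2, map_zero, zero_mul, zero_mul]

theorem exists_gap (V : Set ℝ) (hV : V.Finite) : ∃ δ : ℝ, 0 < δ ∧ ∀ v ∈ V, v ≠ 0 → δ ≤ |v| := by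
  induction V, hV using Set.Finite.induction_on with
  | empty => exact ⟨1, one_pos, fun v hv => absurd hv (Set.notMem_empty v)⟩
  | @insert a s _ _ ih =>
    obtain ⟨δ, hδ, h⟩ := ih
    by_cases ha : a = 0
    · refine ⟨δ, hδ, fun v hv hv0 => ?_⟩
      rcases hv with rfl | hv
      · exact absurd ha hv0
      · exact h v hv hv0
    · refine ⟨min δ |a|, lt_min hδ (abs_pos.2 ha), fun v hv hv0 => ?_⟩
      rcases hv with rfl | hv
      · exact min_le_right _ _
      · exact (min_le_left _ _).trans (h v hv hv0)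

theorem zpow_split {K : Type} [Field K] (y : K) (hy : y ≠ 0) (m : ℤ) :
    y ^ m = y ^ m.toNat * (y⁻¹) ^ (-m).toNat := by
  conv_lhs => rw [← Int.toNat_sub_toNat_neg m]
  rw [zpow_sub₀ hy, zpow_natCast, zpow_natCast, inv_pow, div_eq_mul_inv]

theorem prod_zpow_const {Γ : Type} [CommGroupWithZero Γ] {ι : Type} (s : Finset ι) (a : Γ)
    (ha : a ≠ 0) (k : ι → ℤ) : ∏ l ∈ s, a ^ k l = a ^ (∑ l ∈ s, k l) := by
  classical
  induction s using Finset.induction_on with
  | empty => simp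
  | insert i s hi ih => rw [Finset.prod_insert hi, Finset.sum_insert hi, zpow_add₀ ha, ih]

section alg

variable {n : ℕ} {E : Type} [Field E] [Algebra ℂ E] (G : Gen n E)

/-- the functions to be lifted -/
noncomputable def gf (m : Fin n → ℤ) (H : MvPolynomial (Fin n ⊕ Fin n) ℂ) :
    Fin n ⊕ Fin n ⊕ Fin 2 → E :=
  Sum.elim G.y (Sum.elim (fun l => (G.y l)⁻¹)
    ![∏ l, G.y l ^ m l, (aeval (Sum.elim G.x G.y) H)⁻¹])

theorem gf_alg (m : Fin n → ℤ) (H : MvPolynomial (Fin n ⊕ Fin n) ℂ) (k : Fin n ⊕ Fin n ⊕ Fin 2) :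
    IsAlgebraic (IntermediateField.adjoin ℂ (Set.range (gz G))) (gf G m H k) := by
  set K := IntermediateField.adjoin ℂ (Set.range (gz G)) with hK
  have hy : ∀ l, G.y l ∈ algebraicClosure K E := fun l =>
    (mem_algebraicClosure_iff (F := K)).2 (G.halg l)
  have hx : ∀ l, G.x l ∈ algebraicClosure K E := fun l => by
    rw [mem_algebraicClosure_iff]
    have h1 : G.x l ∈ K := IntermediateField.subset_adjoin _ _ ⟨some l, rfl⟩
    exact isAlgebraic_algebraMap (⟨G.x l, h1⟩ : K)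
  have hc : ∀ c : ℂ, algebraMap ℂ E c ∈ algebraicClosure K E := fun c => by
    rw [mem_algebraicClosure_iff]
    have h1 : algebraMap ℂ E c ∈ K := K.algebraMap_mem c
    exact isAlgebraic_algebraMap (⟨algebraMap ℂ E c, h1⟩ : K)
  have hH : aeval (Sum.elim G.x G.y) H ∈ algebraicClosure K E := by
    induction H using MvPolynomial.induction_on with
    | C c =>
      rw [MvPolynomial.aeval_C]
      exact hc c
    | add p q hp hq =>
      rw [map_add]
      exact add_mem hp hq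
    | mul_X p i hp =>
      rw [map_mul, aeval_X]
      refine mul_mem hp ?_
      rcases i with i | i
      · exact hx i
      · exact hy i
  rw [← mem_algebraicClosure_iff]
  rcases k with l | l | i
  · exact hy l
  · exact inv_mem (hy l)
  · fin_cases i
    · have e : gf G m H (Sum.inr (Sum.inr 0)) = ∏ l, G.y l ^ m l := rfl
      show gf G m H (Sum.inr (Sum.inr 0)) ∈ _
      rw [e]
      exact prod_mem fun l _ => zpow_mem (hy l) (m l)
    · exact inv_mem hH

end alg

theorem lift (h1 : S_dom) (h2 : S_slope) (h3 : S_newt) (h4 : S_val) (h5 : S_lift0) (h6 : S_sep) :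
    S_lift := by
  intro n E _ _ G H hH
  classical
  have hPp : Prime G.P := G.hP.prime
  -- equations of the functions `y_l`
  have ha : ∀ l, ∃ A : Polynomial (MvPolynomial (Option (Fin n)) ℂ),
      (∃ b j, ¬ G.P ∣ cf (A.coeff b) j) ∧
      (A.map (aeval (gz G) : MvPolynomial (Option (Fin n)) ℂ →ₐ[ℂ] E).toRingHom).eval (G.y l) = 0 := by
    intro l
    obtain ⟨A, _, -, ⟨b, hb⟩, g3, -⟩ := h5 E (Option (Fin n)) Unit (gz G) (fun _ => G.y l) ()
      (fun _ => G.halg l)
    obtain ⟨j, hj⟩ := exists_of_ne G hb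
    exact ⟨A, ⟨b, j, hj⟩, g3⟩
  choose A hA1 hA2 using ha
  have hs := fun l => h2 n G.P (A l) G.hP (hA1 l)
  choose R S hR hS using hs
  have hfin : {σ : Fin n → ℝ | ∀ l, σ l ∈ S l}.Finite := by
    have := Set.Finite.pi (fun l => (S l).finite_toSet)
    refine this.subset fun σ hσ l _ => hσ l
  obtain ⟨m, hm⟩ := h6 n {σ | ∀ l, σ l ∈ S l} G.a hfin
  -- all the functions
  obtain ⟨A0, H0, g1, ⟨b0, g2⟩, g3, g4⟩ := h5 E (Option (Fin n)) (Fin n ⊕ Fin n ⊕ Fin 2) (gz G)
    (gf G m H) (Sum.inr (Sum.inr 0)) (gf_alg G m H)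
  obtain ⟨M1, M2, e1, e2⟩ := expand (E := E) A0
  set F : Finset (ℕ × ℕ) := (Finset.range M1 ×ˢ Finset.range M2).filter
    (fun e => ¬ G.P ∣ cf (A0.coeff e.2) e.1) with hF
  have hFmem : ∀ e : ℕ × ℕ, ¬ G.P ∣ cf (A0.coeff e.2) e.1 → e ∈ F := by
    intro e he
    have h7 : cf (A0.coeff e.2) e.1 ≠ 0 := by
      intro h8
      apply he
      rw [h8]
      exact dvd_zero _
    obtain ⟨h8, h9⟩ := e1 _ _ h7
    exact Finset.mem_filter.2 ⟨Finset.mem_product.2 ⟨Finset.mem_range.2 h8, Finset.mem_range.2 h9⟩, he⟩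
  have hFne : F.Nonempty := by
    obtain ⟨j, hj⟩ := exists_of_ne G g2
    exact ⟨(j, b0), hFmem _ hj⟩
  set f0 : E := ∏ l, G.y l ^ m l with hf0
  have hf0ne : f0 ≠ 0 := Finset.prod_ne_zero_iff.2 fun l _ => zpow_ne_zero _ (G.hy l)
  have hsum : ∑ e ∈ F, aeval G.x (cf (A0.coeff e.2) e.1) * gY G ^ e.1 * f0 ^ e.2 = 0 := by
    have h7 := e2 (gY G) f0 G.x
    have h8 : (A0.map (aeval (oe (gY G) G.x) :
        MvPolynomial (Option (Fin n)) ℂ →ₐ[ℂ] E).toRingHom).eval f0 = 0 := g3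
    rw [h8] at h7
    rw [h7, hF]
    apply Finset.sum_filter_of_ne
    intro e _ he hP
    apply he
    rw [(G.hx _).2 hP, zero_mul, zero_mul]
  have hval : G.O.valuation f0 ^ G.N = G.O.valuation (gY G) ^ (∑ l, m l * G.b l) := by
    rw [hf0, map_prod, ← Finset.prod_pow]
    rw [← prod_zpow_const Finset.univ _ (vY_ne G)]
    refine Finset.prod_congr rfl fun l _ => ?_
    rw [map_zpow₀, ← zpow_natCast, zpow_comm, zpow_natCast, G.hb l]
    show (G.O.valuation (gY G) ^ G.b l) ^ m l = _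
    rw [← zpow_mul, mul_comm (G.b l)]
  obtain ⟨e₁, he₁, e₂, he₂, hne, hmin⟩ := h4 E G.O F (fun e => aeval G.x (cf (A0.coeff e.2) e.1))
    (gY G) f0 G.N (∑ l, m l * G.b l) hFne (fun e he => G.hO _ (Finset.mem_filter.1 he).2)
    (gY_ne G) hf0ne G.hY G.hN hval hsum
  set r : ℝ := ((∑ l, m l * G.b l : ℤ) : ℝ) / G.N with hr
  have hra : r = ∑ l, (m l : ℝ) * G.a l := by
    rw [hr]
    push_cast
    rw [Finset.sum_div]
    refine Finset.sum_congr rfl fun l _ => ?_
    unfold Gen.a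
    ring
  obtain ⟨R1, hR1, hN1⟩ := h3 n G.P A0 r e₁.2 e₁.1 e₂.2 e₂.1 G.hP hne (Finset.mem_filter.1 he₁).2
    (Finset.mem_filter.1 he₂).2 (fun b j hbj => hmin (j, b) (hFmem (j, b) hbj))
  obtain ⟨R2, hR2, hN2⟩ := h1 n G.P H0 G.hP (exists_of_ne G g1)
  refine ⟨(∏ l, R l) * R1 * R2, ?_, ?_⟩
  · intro hd
    rcases hPp.dvd_or_dvd hd with h7 | h7
    · rcases hPp.dvd_or_dvd h7 with h8 | h8
      · obtain ⟨l, -, h9⟩ := (hPp.dvd_finsetProd_iff _).1 h8
        exact hR l h9
      · exact hR1 h8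
    · exact hR2 h7
  intro R' hR' D
  have d1 : ∀ l, R l ∣ R' := fun l => ((Finset.dvd_prod_of_mem R (Finset.mem_univ l)).trans
    (Dvd.intro _ rfl)).trans ((Dvd.intro _ rfl : (∏ l, R l) * R1 ∣ (∏ l, R l) * R1 * R2).trans hR')
  have d2 : R1 ∣ R' := ((Dvd.intro_left _ rfl).trans
    (Dvd.intro _ rfl : (∏ l, R l) * R1 ∣ (∏ l, R l) * R1 * R2)).trans hR'
  have d3 : R2 ∣ R' := (Dvd.intro_left _ rfl).trans hR'
  have hSl := fun l => hS l R' (d1 l) D
  choose D1 K1 hK1 hS1 using hSl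
  obtain ⟨D2, K2, hK2, hS2⟩ := hN1 R' d2 D
  obtain ⟨K3, hK3, hS3⟩ := hN2 R' d3 D
  -- the gap
  obtain ⟨δ, hδ, hgap⟩ := exists_gap ((fun σ : Fin n → ℝ => ∑ l, (m l : ℝ) * σ l - r) ''
    {σ | ∀ l, σ l ∈ S l}) (hfin.image _)
  set D3 : ℝ := |D2| + ∑ l, |(m l : ℝ)| * |D1 l| with hD3
  have hD30 : 0 ≤ D3 := add_nonneg (abs_nonneg _) (Finset.sum_nonneg fun l _ =>
    mul_nonneg (abs_nonneg _) (abs_nonneg _))
  set K : ℝ := (∑ l, K1 l) + K2 + K3 + 2 + D3 / δ with hK
  have hsK : 0 ≤ ∑ l, K1 l := Finset.sum_nonneg fun l _ => le_trans zero_le_one (hK1 l)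
  have hDd : 0 ≤ D3 / δ := div_nonneg hD30 hδ.le
  have k1 : ∀ l, K1 l ≤ K := fun l => by
    have := Finset.single_le_sum (fun l _ => le_trans zero_le_one (hK1 l)) (Finset.mem_univ l)
    linarith
  have k2 : K2 ≤ K := by linarith
  have k3 : K3 ≤ K := by linarith
  have k4 : 2 ≤ K := by linarith
  have k5 : D3 < K * δ := by
    have h7 : D3 / δ < K := by linarith
    rwa [div_lt_iff₀ hδ] at h7
  refine ⟨∑ l, |D1 l|, K, by linarith, ?_⟩
  intro T hT x Y hadm
  have hT1 : 1 ≤ T := by linarith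
  have hlT : 0 < Real.log T := Real.log_pos (by linarith)
  have a1 : ∀ l, Adm G.P R' D (K1 l) T x Y := fun l => hadm.mono (k1 l) hT1
  have a2 : Adm G.P R' D K2 T x Y := hadm.mono k2 hT1
  have a3 : Adm G.P R' D K3 T x Y := hadm.mono k3 hT1
  obtain ⟨hx0, hY0, -, -, hYs⟩ := hadm
  obtain ⟨Z, hZ0, hZr, hZs⟩ := hS2 T (k2.trans hT) x Y a2
  have hH0 := hS3 T (k3.trans hT) x Y a3
  obtain ⟨p, hp, hpt, hpZ⟩ := g4 (oe Y x) (pt_z G Y hx0) hH0 Z hZr
  set y : Fin n → ℂ := fun l => p (Sum.inr (Sum.inl l)) with hy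
  set y' : Fin n → ℂ := fun l => p (Sum.inr (Sum.inr (Sum.inl l))) with hy'
  -- relations
  have r1 : ∀ l, y l * y' l = 1 := by
    intro l
    have h7 := hp (X (Sum.inr (Sum.inl l)) * X (Sum.inr (Sum.inr (Sum.inl l))) - 1) (by
      rw [map_sub, map_mul, aeval_X, aeval_X, map_one]
      show G.y l * (G.y l)⁻¹ - 1 = 0
      rw [mul_inv_cancel₀ (G.hy l), sub_self])
    rw [map_sub, map_mul, eval_X, eval_X, map_one] at h7
    exact sub_eq_zero.1 h7
  have hyne : ∀ l, y l ≠ 0 := fun l => left_ne_zero_of_mul_eq_one (r1 l)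
  have hyinv : ∀ l, y' l = (y l)⁻¹ := fun l => eq_inv_of_mul_eq_one_right (r1 l)
  have r2 : y G.i0 ^ G.ε = Y := by
    have hpn : p (Sum.inl none) = Y := hpt none
    rcases G.hε with h | h
    · have h7 := hp (X (Sum.inr (Sum.inl G.i0)) - X (Sum.inl none)) (by
        rw [map_sub, aeval_X, aeval_X]
        show G.y G.i0 - G.y G.i0 ^ G.ε = 0
        rw [h, zpow_one, sub_self])
      rw [map_sub, eval_X, eval_X, hpn] at h7
      rw [h, zpow_one]
      exact sub_eq_zero.1 h7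
    · have h7 := hp (X (Sum.inr (Sum.inr (Sum.inl G.i0))) - X (Sum.inl none)) (by
        rw [map_sub, aeval_X, aeval_X]
        show (G.y G.i0)⁻¹ - G.y G.i0 ^ G.ε = 0
        rw [h, zpow_neg_one, sub_self])
      rw [map_sub, eval_X, eval_X, hpn] at h7
      rw [h, zpow_neg_one, ← hyinv]
      exact sub_eq_zero.1 h7
  let ι : Fin n ⊕ Fin n → Option (Fin n) ⊕ (Fin n ⊕ Fin n ⊕ Fin 2) :=
    Sum.elim (fun l => Sum.inl (some l)) (fun l => Sum.inr (Sum.inl l))
  have hι1 : (Sum.elim (gz G) (gf G m H)) ∘ ι = Sum.elim G.x G.y := by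
    funext i
    rcases i with l | l
    · rfl
    · rfl
  have hι2 : p ∘ ι = Sum.elim x y := by
    funext i
    rcases i with l | l
    · exact hpt (some l)
    · rfl
  have hren : ∀ g : MvPolynomial (Fin n ⊕ Fin n) ℂ, eval p (rename ι g) = eval (Sum.elim x y) g := by
    intro g
    rw [eval_rename, hι2]
  have hren' : ∀ g : MvPolynomial (Fin n ⊕ Fin n) ℂ, aeval (Sum.elim (gz G) (gf G m H)) (rename ι g) =
      aeval (Sum.elim G.x G.y) g := by
    intro g
    rw [aeval_rename, hι1]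
  have r3 : eval (Sum.elim x y) H ≠ 0 := by
    have h7 := hp (rename ι H * X (Sum.inr (Sum.inr (Sum.inr 1))) - 1) (by
      rw [map_sub, map_mul, hren', aeval_X, map_one]
      show aeval (Sum.elim G.x G.y) H * (aeval (Sum.elim G.x G.y) H)⁻¹ - 1 = 0
      rw [mul_inv_cancel₀ hH, sub_self])
    rw [map_sub, map_mul, hren, eval_X, map_one] at h7
    exact left_ne_zero_of_mul_eq_one (sub_eq_zero.1 h7)
  have r4 : Sum.elim x y ∈ Pt (Sum.elim G.x G.y) := by
    intro g hg
    have h7 := hp (rename ι g) (by rw [hren', hg])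
    rwa [hren] at h7
  have r5 : Z = ∏ l, y l ^ m l := by
    have h7 := hp (X (Sum.inr (Sum.inr (Sum.inr 0))) - ∏ l, X (Sum.inr (Sum.inl l)) ^ (m l).toNat *
        X (Sum.inr (Sum.inr (Sum.inl l))) ^ (-m l).toNat) (by
      rw [map_sub, map_prod, aeval_X]
      show f0 - _ = 0
      rw [sub_eq_zero, hf0]
      refine Finset.prod_congr rfl fun l _ => ?_
      rw [map_mul, map_pow, map_pow, aeval_X, aeval_X]
      exact zpow_split _ (G.hy l) (m l))
    rw [map_sub, map_prod, eval_X, hpZ] at h7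
    rw [sub_eq_zero.1 h7]
    refine Finset.prod_congr rfl fun l _ => ?_
    rw [map_mul, map_pow, map_pow, eval_X, eval_X]
    show y l ^ (m l).toNat * y' l ^ (-m l).toNat = _
    rw [hyinv, zpow_split _ (hyne l) (m l)]
  have r6 : ∀ l, ((A l).map (eval (oe Y x))).eval (y l) = 0 := by
    intro l
    let g : MvPolynomial (Option (Fin n) ⊕ (Fin n ⊕ Fin n ⊕ Fin 2)) ℂ :=
      ((A l).map (rename (Sum.inl : Option (Fin n) → Option (Fin n) ⊕ (Fin n ⊕ Fin n ⊕ Fin 2)) :
        MvPolynomial (Option (Fin n)) ℂ →ₐ[ℂ] _).toRingHom).eval (X (Sum.inr (Sum.inl l)))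
    have h7 : aeval (Sum.elim (gz G) (gf G m H)) g =
        ((A l).map (aeval (gz G) : MvPolynomial (Option (Fin n)) ℂ →ₐ[ℂ] E).toRingHom).eval
          (G.y l) := by
      show (aeval (Sum.elim (gz G) (gf G m H)) :
        MvPolynomial (Option (Fin n) ⊕ (Fin n ⊕ Fin n ⊕ Fin 2)) ℂ →ₐ[ℂ] E).toRingHom g = _
      rw [← Polynomial.eval₂_hom, ← Polynomial.eval_map, Polynomial.map_map]
      congr 1
      · exact aeval_X _ _
      · congr 1
        apply MvPolynomial.ringHom_ext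
        · intro c
          simp
        · intro i
          simp
    have h8 : eval p g = ((A l).map (eval (oe Y x))).eval (y l) := by
      show (eval p) g = _
      rw [← Polynomial.eval₂_hom, ← Polynomial.eval_map, Polynomial.map_map]
      congr 1
      · exact eval_X _
      · congr 1
        apply MvPolynomial.ringHom_ext
        · intro c
          simp
        · intro i
          simp [hpt i]
    rw [← h8]
    exact hp g (by rw [h7, hA2 l])
  -- the sizes
  have hsz := fun l => hS1 l T ((k1 l).trans hT) x Y (a1 l) (y l) (hyne l) (r6 l)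
  choose σ hσS hσ using hsz
  have hlogY : Real.log ‖Y‖ ≤ - (K * Real.log T) := by
    have h7 : Real.log ‖Y‖ ≤ Real.log (T ^ (-K)) := Real.log_le_log (norm_pos_iff.2 hY0) hYs
    rw [Real.log_rpow (by linarith)] at h7
    linarith
  have hlogZ : Real.log ‖Z‖ = ∑ l, (m l : ℝ) * Real.log ‖y l‖ := by
    rw [r5, norm_prod, Real.log_prod]
    · refine Finset.sum_congr rfl fun l _ => ?_
      rw [norm_zpow, Real.log_zpow]
    · intro l _
      exact (norm_pos_iff.2 (zpow_ne_zero _ (hyne l))).ne'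
  have hσa : σ = G.a := by
    apply hm σ hσS
    by_contra hne2
    have hv : ∑ l, (m l : ℝ) * σ l - r ≠ 0 := by
      rw [hra]
      exact sub_ne_zero.2 hne2
    have h7 := hgap _ ⟨σ, hσS, rfl⟩ hv
    have h8 : |(∑ l, (m l : ℝ) * σ l - r) * Real.log ‖Y‖| ≤ D3 * Real.log T := by
      have h9 : (∑ l, (m l : ℝ) * σ l - r) * Real.log ‖Y‖ = (Real.log ‖Z‖ - r * Real.log ‖Y‖) -
          ∑ l, (m l : ℝ) * (Real.log ‖y l‖ - σ l * Real.log ‖Y‖) := by
        rw [hlogZ]
        simp only [mul_sub, Finset.sum_sub_distrib]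
        rw [sub_mul, Finset.sum_mul]
        have : ∀ l, (m l : ℝ) * (σ l * Real.log ‖Y‖) = (m l : ℝ) * σ l * Real.log ‖Y‖ := fun l => by
          ring
        simp only [this]
        ring
      rw [h9]
      refine (abs_sub _ _).trans ?_
      rw [hD3, add_mul, Finset.sum_mul]
      refine add_le_add ?_ ?_
      · exact hZs.trans (mul_le_mul_of_nonneg_right (le_abs_self _) hlT.le)
      · refine (Finset.abs_sum_le_sum_abs _ _).trans (Finset.sum_le_sum fun l _ => ?_)
        rw [abs_mul, mul_assoc]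
        refine mul_le_mul_of_nonneg_left ?_ (abs_nonneg _)
        exact (hσ l).trans (mul_le_mul_of_nonneg_right (le_abs_self _) hlT.le)
    rw [abs_mul] at h8
    have h9 : K * Real.log T ≤ |Real.log ‖Y‖| := by
      have := neg_abs_le (Real.log ‖Y‖)
      have h10 := neg_le_abs (Real.log ‖Y‖)
      linarith
    have h10 : δ * (K * Real.log T) ≤ D3 * Real.log T :=
      (mul_le_mul h7 h9 (by positivity) (abs_nonneg _)).trans h8
    have h11 : δ * K ≤ D3 := by
      have : (δ * K) * Real.log T ≤ D3 * Real.log T := by linarith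
      exact le_of_mul_le_mul_right this hlT
    linarith
  refine ⟨y, r4, hyne, r2, r3, fun l => ?_⟩
  have h7 := hσ l
  rw [hσa] at h7
  refine h7.trans (mul_le_mul_of_nonneg_right ?_ hlT.le)
  exact (le_abs_self _).trans (Finset.single_le_sum (f := fun l => |D1 l|)
    (fun l _ => abs_nonneg _) (Finset.mem_univ l))

end Pool.Agent.Q251.EG
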