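import Pool.Agent.Q72.EG.Stm
import Pool.Agent.H713R3.ZA.TROOT
import Pool.Agent.W565.EC.Lib
import Pool.Agent.W721.EC.Tools
import Pool.Agent.W578.ECPt

set_option autoImplicit false

/-!
Project EG (helper72): the job REGION (helper251).
-/

namespace Pool.Agent.Q251.EG

open MvPolynomial Filter Topology Metric Pool.Agent.W996.EC Pool.Agent.Q72.EG

namespace Reg

variable {n : ℕ}

/-- growth of a polynomial -/
theorem growth {σ : Type} [Fintype σ] (p : MvPolynomial σ ℂ) :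
    ∃ D : ℝ, 0 ≤ D ∧ ∀ T : ℝ, 2 ≤ T → ∀ x : σ → ℂ, ‖x‖ ≤ T ^ 2 → ‖eval x p‖ ≤ T ^ D := by
  obtain ⟨N, hN⟩ : ∃ N : ℕ, ∑ m ∈ p.support, ‖coeff m p‖ < 2 ^ N :=
    pow_unbounded_of_one_lt _ (by norm_num)
  refine ⟨((N + 2 * p.totalDegree : ℕ) : ℝ), by positivity, fun T hT x hx => ?_⟩
  rw [Real.rpow_natCast, eval_eq']
  have hT1 : 1 ≤ T ^ 2 := by nlinarith
  have h1 : ∀ m ∈ p.support, ‖coeff m p * ∏ i, x i ^ m i‖ ≤
      ‖coeff m p‖ * (T ^ (2 * p.totalDegree)) := by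
    intro m hm
    rw [norm_mul]
    refine mul_le_mul_of_nonneg_left ?_ (norm_nonneg _)
    rw [norm_prod]
    calc ∏ i, ‖x i ^ m i‖ ≤ ∏ i, (T ^ 2) ^ m i := by
          refine Finset.prod_le_prod (fun _ _ => norm_nonneg _) fun i _ => ?_
          rw [norm_pow]
          exact pow_le_pow_left₀ (norm_nonneg _) ((norm_le_pi_norm x i).trans hx) _
      _ = (T ^ 2) ^ (∑ i, m i) := by rw [Finset.prod_pow_eq_pow_sum]
      _ ≤ (T ^ 2) ^ p.totalDegree := by
          refine pow_le_pow_right₀ hT1 ?_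
          have h2 := le_totalDegree hm
          rwa [Finsupp.sum_fintype _ _ (fun _ => rfl)] at h2
      _ = T ^ (2 * p.totalDegree) := by rw [← pow_mul]
  calc ‖∑ m ∈ p.support, coeff m p * ∏ i, x i ^ m i‖
      ≤ ∑ m ∈ p.support, ‖coeff m p * ∏ i, x i ^ m i‖ := norm_sum_le _ _
    _ ≤ ∑ m ∈ p.support, ‖coeff m p‖ * (T ^ (2 * p.totalDegree)) := Finset.sum_le_sum h1
    _ = (∑ m ∈ p.support, ‖coeff m p‖) * T ^ (2 * p.totalDegree) := by rw [Finset.sum_mul]
    _ ≤ T ^ N * T ^ (2 * p.totalDegree) := by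
        refine mul_le_mul_of_nonneg_right ?_ (by positivity)
        exact hN.le.trans (pow_le_pow_left₀ (by norm_num) hT _)
    _ = T ^ (N + 2 * p.totalDegree) := by rw [pow_add]

/-- uniform convergence on bounded sets -/
theorem unif {p : ℕ → MvPolynomial (Fin n) ℂ} {q : MvPolynomial (Fin n) ℂ} (h : Conv p q)
    (B : ℝ) {ε : ℝ} (hε : 0 < ε) :
    ∀ᶠ j in atTop, ∀ x : Fin n → ℂ, ‖x‖ ≤ B → ‖eval x (p j) - eval x q‖ ≤ ε := by
  obtain ⟨⟨d, hd⟩, hc⟩ := h
  set S := Finset.Iic (Finsupp.equivFunOnFinite.symm (fun _ : Fin n => d)) ∪ q.support with hS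
  have h1 : ∀ j, (p j).support ⊆ S := fun j =>
    (Pool.Agent.W578.ECPt.support_sub n d (p j) (hd j)).trans Finset.subset_union_left
  have h2 : q.support ⊆ S := Finset.subset_union_right
  have h3 : Tendsto (fun j => ∑ m ∈ S, ‖coeff m (p j) - coeff m q‖ * ∏ i, (max B 1) ^ m i) atTop
      (𝓝 0) := by
    rw [show (0 : ℝ) = ∑ m ∈ S, 0 * ∏ i, (max B 1) ^ m i by simp]
    refine tendsto_finsetSum _ fun m _ => Tendsto.mul_const _ ?_
    have := ((hc m).sub_const (coeff m q)).norm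
    simpa using this
  filter_upwards [h3.eventually (eventually_le_nhds hε)] with j hj x hx
  rw [Pool.Agent.W578.ECPt.eval_sum n S q h2, Pool.Agent.W578.ECPt.eval_sum n S (p j) (h1 j),
    ← Finset.sum_sub_distrib]
  refine (norm_sum_le _ _).trans (le_trans (Finset.sum_le_sum fun m _ => ?_) hj)
  rw [← sub_mul, norm_mul]
  refine mul_le_mul_of_nonneg_left ?_ (norm_nonneg _)
  rw [norm_prod]
  refine Finset.prod_le_prod (fun _ _ => norm_nonneg _) fun i _ => ?_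
  rw [norm_pow]
  exact pow_le_pow_left₀ (norm_nonneg _) (((norm_le_pi_norm x i).trans hx).trans (le_max_left _ _)) _

/-- minimum modulus -/
theorem zero_in_disc (f : ℂ → ℂ) (hf : Differentiable ℂ f) (ω0 : ℂ) (r m : ℝ) (hr : 0 < r)
    (h0 : ‖f ω0‖ < m) (h1 : ∀ ω, ‖ω - ω0‖ = r → m ≤ ‖f ω‖) : ∃ ω, ‖ω - ω0‖ < r ∧ f ω = 0 := by
  by_contra hcon
  push Not at hcon
  have hm : 0 < m := (norm_nonneg _).trans_lt h0
  have hne : ∀ ω ∈ closedBall ω0 r, f ω ≠ 0 := by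
    intro ω hω
    rw [mem_closedBall, dist_eq_norm] at hω
    rcases lt_or_eq_of_le hω with h | h
    · exact hcon ω h
    · intro h2
      have := h1 ω h
      rw [h2, norm_zero] at this
      linarith
  have hd : DiffContOnCl ℂ (fun ω => (f ω)⁻¹) (ball ω0 r) := by
    refine DifferentiableOn.diffContOnCl ?_
    rw [closure_ball _ hr.ne']
    intro ω hω
    exact ((hf ω).inv (hne ω hω)).differentiableWithinAt
  have h2 := Complex.norm_le_of_forall_mem_frontier_norm_le isBounded_ball hd (C := m⁻¹)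
    (by
      intro z hz
      rw [frontier_ball _ hr.ne', mem_sphere, dist_eq_norm] at hz
      rw [norm_inv]
      exact inv_anti₀ hm (h1 z hz)) (z := ω0) (subset_closure (mem_ball_self hr))
  rw [norm_inv] at h2
  have h3 : 0 < ‖f ω0‖ := norm_pos_iff.2 (hne ω0 (mem_closedBall_self hr.le))
  have h4 := (inv_le_inv₀ h3 hm).1 h2
  linarith

/-- the polynomial `P(u + w a)` in `w` with coefficients in the ring of polynomials in `u` -/
noncomputable def Phi (a : Fin n → ℝ) (P : MvPolynomial (Fin n) ℂ) :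
    Polynomial (MvPolynomial (Fin n) ℂ) :=
  aeval (fun i => Polynomial.C (X i : MvPolynomial (Fin n) ℂ) +
    Polynomial.C (C (a i : ℂ) : MvPolynomial (Fin n) ℂ) * Polynomial.X) P

theorem Phi_map (a : Fin n → ℝ) (P : MvPolynomial (Fin n) ℂ) (u : Fin n → ℂ) :
    (Phi a P).map (eval u) = Pool.Agent.W565.EC.line u (cx a) P := by
  unfold Phi
  induction P using MvPolynomial.induction_on with
  | C c =>
    rw [Pool.Agent.W565.EC.line_C, MvPolynomial.aeval_C]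
    rw [Polynomial.algebraMap_apply, Polynomial.map_C]
    simp
  | add p q hp hq => rw [map_add, map_add, Polynomial.map_add, hp, hq]
  | mul_X p i hp =>
    rw [map_mul, map_mul, Polynomial.map_mul, hp, aeval_X, Pool.Agent.W565.EC.line_X]
    congr 1
    simp [cx]

theorem Phi_eval (a : Fin n → ℝ) (P : MvPolynomial (Fin n) ℂ) (u : Fin n → ℂ) (w : ℂ) :
    ((Phi a P).map (eval u)).eval w = eval (fun l => u l + w * (a l : ℂ)) P := by
  rw [Phi_map, Pool.Agent.W565.EC.line_eval]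
  rfl

/-- properness -/
theorem proper (Q : Polynomial (MvPolynomial (Fin n) ℂ)) (hQ : Q.natDegree ≠ 0)
    (K : Set (Fin n → ℂ)) (hK : IsCompact K) (hne : ∀ s ∈ K, eval s Q.leadingCoeff ≠ 0) (M : ℝ) :
    ∃ B : ℝ, ∀ s ∈ K, ∀ z : ℂ, ‖(Q.map (eval s)).eval z‖ ≤ M → ‖z‖ ≤ B := by
  rcases K.eq_empty_or_nonempty with rfl | hKn
  · exact ⟨0, fun s hs => absurd hs (Set.notMem_empty s)⟩
  obtain ⟨d, hd⟩ : ∃ d, Q.natDegree = d + 1 := ⟨Q.natDegree - 1, by omega⟩
  obtain ⟨s0, hs0, hmin⟩ := hK.exists_isMinOn hKn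
    (f := fun s => ‖eval s Q.leadingCoeff‖) (MvPolynomial.continuous_eval _).norm.continuousOn
  obtain ⟨s1, hs1, hmax⟩ := hK.exists_isMaxOn hKn
    (f := fun s => ∑ i ∈ Finset.range (d + 1), ‖eval s (Q.coeff i)‖)
    (continuous_finsetSum _ fun i _ => (MvPolynomial.continuous_eval _).norm).continuousOn
  set m := ‖eval s0 Q.leadingCoeff‖ with hm
  set A := ∑ i ∈ Finset.range (d + 1), ‖eval s1 (Q.coeff i)‖ with hA
  have hm0 : 0 < m := norm_pos_iff.2 (hne s0 hs0)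
  have hA0 : 0 ≤ A := Finset.sum_nonneg fun _ _ => norm_nonneg _
  refine ⟨max 1 ((|M| + A) / m), fun s hs z hz => ?_⟩
  by_cases hz1 : ‖z‖ ≤ 1
  · exact hz1.trans (le_max_left _ _)
  push Not at hz1
  refine le_trans ?_ (le_max_right _ _)
  rw [le_div_iff₀ hm0]
  have h1 : (Q.map (eval s)).eval z = ∑ i ∈ Finset.range (d + 2), eval s (Q.coeff i) * z ^ i := by
    rw [Polynomial.eval_map, Polynomial.eval₂_eq_sum_range, hd]
  rw [Finset.sum_range_succ] at h1
  have h2 : eval s (Q.coeff (d + 1)) * z ^ (d + 1) = (Q.map (eval s)).eval z -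
      ∑ i ∈ Finset.range (d + 1), eval s (Q.coeff i) * z ^ i := by rw [h1]; ring
  have h3 : Q.coeff (d + 1) = Q.leadingCoeff := by rw [Polynomial.leadingCoeff, hd]
  have h4 : m * ‖z‖ ^ (d + 1) ≤ |M| + A * ‖z‖ ^ d := by
    calc m * ‖z‖ ^ (d + 1) ≤ ‖eval s Q.leadingCoeff‖ * ‖z‖ ^ (d + 1) := by
          refine mul_le_mul_of_nonneg_right (hmin hs) (by positivity)
      _ = ‖eval s (Q.coeff (d + 1)) * z ^ (d + 1)‖ := by rw [h3, norm_mul, norm_pow]
      _ ≤ ‖(Q.map (eval s)).eval z‖ + ‖∑ i ∈ Finset.range (d + 1), eval s (Q.coeff i) * z ^ i‖ := by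
          rw [h2]; exact norm_sub_le _ _
      _ ≤ |M| + ∑ i ∈ Finset.range (d + 1), ‖eval s (Q.coeff i)‖ * ‖z‖ ^ d := by
          refine add_le_add (hz.trans (le_abs_self _)) ?_
          refine (norm_sum_le _ _).trans (Finset.sum_le_sum fun i hi => ?_)
          rw [norm_mul, norm_pow]
          refine mul_le_mul_of_nonneg_left ?_ (norm_nonneg _)
          exact pow_le_pow_right₀ hz1.le (by rw [Finset.mem_range] at hi; omega)
      _ ≤ |M| + A * ‖z‖ ^ d := by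
          rw [← Finset.sum_mul]
          have : ∑ i ∈ Finset.range (d + 1), ‖eval s (Q.coeff i)‖ ≤ A := hmax hs
          gcongr
  have h5 : 1 ≤ ‖z‖ ^ d := one_le_pow₀ hz1.le
  have h6 : m * ‖z‖ ^ (d + 1) ≤ (|M| + A) * ‖z‖ ^ d := by
    nlinarith [abs_nonneg M]
  have h7 : (‖z‖ * m) * ‖z‖ ^ d ≤ (|M| + A) * ‖z‖ ^ d := by
    calc (‖z‖ * m) * ‖z‖ ^ d = m * ‖z‖ ^ (d + 1) := by ring
      _ ≤ _ := h6
  exact le_of_mul_le_mul_right h7 (by positivity)

/-- evaluation is smooth -/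
theorem contDiff_ev {V : Type} [NormedAddCommGroup V] [NormedSpace ℂ V] (P : MvPolynomial (Fin n) ℂ)
    (f : V → Fin n → ℂ) (hf : ∀ i, ContDiff ℂ 1 (fun v => f v i)) :
    ContDiff ℂ 1 (fun v => eval (f v) P) := by
  induction P using MvPolynomial.induction_on with
  | C c => simp only [eval_C]; exact contDiff_const
  | add p q hp hq => simp only [map_add]; exact hp.add hq
  | mul_X p i hp => simp only [map_mul, eval_X]; exact hp.mul (hf i)

/-! ### algebra -/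

/-- not invariant in the direction `a` -/
def NI (P : MvPolynomial (Fin n) ℂ) (a : Fin n → ℝ) : Prop :=
  ∃ (x : Fin n → ℂ) (t : ℂ), eval (fun l => x l + t * (a l : ℂ)) P ≠ eval x P

theorem dk_ndvd {P : MvPolynomial (Fin n) ℂ} {a : Fin n → ℝ} (h : NI P a) : ¬ P ∣ Dk a P := by
  have h0 : Dk a P ≠ 0 := by
    intro h0
    obtain ⟨x, t, hxt⟩ := h
    apply hxt
    have := Pool.Agent.W721.EC.inv_of_Dk h0 x t
    rw [← this]
    congr 1
    apply congrArg
    funext i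
    ring
  rintro ⟨S, hS⟩
  have hP : P ≠ 0 := by rintro rfl; rw [zero_mul] at hS; exact h0 hS
  have hS0 : S ≠ 0 := by rintro rfl; rw [mul_zero] at hS; exact h0 hS
  have h1 : P.totalDegree ≠ 0 := fun h1 => h0 (Pool.Agent.W565.EC.Dk_of_td_zero a P h1)
  have h2 := Pool.Agent.W565.EC.td_Dk a P (P.totalDegree - 1) (by omega)
  rw [hS, totalDegree_mul_of_isDomain hP hS0] at h2
  omega

theorem natDegree_Phi {P : MvPolynomial (Fin n) ℂ} {a : Fin n → ℝ} (h : NI P a) :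
    (Phi a P).natDegree ≠ 0 := by
  intro h0
  obtain ⟨x, t, hxt⟩ := h
  obtain ⟨g, hg⟩ := Polynomial.natDegree_eq_zero.1 h0
  apply hxt
  have h1 := Phi_eval a P x t
  have h2 := Phi_eval a P x 0
  rw [← hg, Polynomial.map_C, Polynomial.eval_C] at h1 h2
  rw [← h1, h2]
  congr 1
  apply congrArg
  funext i
  ring

theorem ni_of_lim {P q : MvPolynomial (Fin n) ℂ} {a : Fin n → ℝ} (lam : ℕ → ℝ)
    (k : ℕ → Fin n → ℝ) (c : ℕ → ℂ) (hc : Conv (fun j => C (c j) * tr (lam j) (k j) P) q)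
    (κ : Fin n → ℝ) (ω0 ω1 : ℂ)
    (h0 : eval (fun i => (a i : ℂ) * ω0 + Complex.I * (κ i : ℂ)) q = 0)
    (h1 : eval (fun i => (a i : ℂ) * ω1 + Complex.I * (κ i : ℂ)) q ≠ 0) : NI P a := by
  by_contra hcon
  unfold NI at hcon
  push Not at hcon
  apply h1
  rw [← h0]
  have h2 := Pool.Agent.W578.ECPt.conv_eval n _ q hc
    (fun _ => fun i => (a i : ℂ) * ω1 + Complex.I * (κ i : ℂ)) _ tendsto_const_nhds
  have h3 := Pool.Agent.W578.ECPt.conv_eval n _ q hc
    (fun _ => fun i => (a i : ℂ) * ω0 + Complex.I * (κ i : ℂ)) _ tendsto_const_nhds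
  refine tendsto_nhds_unique h2 (h3.congr fun j => ?_)
  rw [map_mul, map_mul, eval_C, eval_C, eval_tr, eval_tr]
  congr 1
  rw [← hcon (fun i => (lam j : ℂ) * ((a i : ℂ) * ω0 + Complex.I * (κ i : ℂ)) +
    Complex.I * (k j i : ℂ)) ((lam j : ℂ) * (ω1 - ω0))]
  congr 1
  apply congrArg
  funext i
  ring

/-- the analytic conclusion for one large ball -/
theorem root {P : MvPolynomial (Fin n) ℂ} {a : Fin n → ℝ} (hNI : NI P a)
    (U : Set (Fin n → ℂ)) (hU : IsOpen U) (hconv : Convex ℝ U) (s₀ : Fin n → ℂ) (hs₀ : s₀ ∈ U)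
    (ρ1 : MvPolynomial (Fin n) ℂ) (α β : MvPolynomial (Option (Fin n)) ℂ)
    (hρ1 : ∀ (u : Fin n → ℂ) (w : ℂ), eval u ρ1 = eval (oe w u) α *
      eval (fun l => u l + w * (a l : ℂ)) P +
      eval (oe w u) β * eval (fun l => u l + w * (a l : ℂ)) (Dk a P))
    (hne1 : ∀ s ∈ U, eval s ρ1 ≠ 0) (hne2 : ∀ s ∈ U, eval s (Phi a P).leadingCoeff ≠ 0)
    (u : ℂ) (hu : eval (fun l => s₀ l + u * (a l : ℂ)) P = 0) :
    ∃ Z : (Fin n → ℂ) → ℂ, DifferentiableOn ℂ Z U ∧ Z s₀ = u ∧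
      ∀ s ∈ U, eval (fun l => s l + Z s * (a l : ℂ)) P = 0 := by
  obtain ⟨Z, h1, h2, h3, -⟩ := Pool.Agent.H713R3.ZA.ROOT.main U
    (fun (s : Fin n → ℂ) (z : ℂ) => eval (fun l => s l + z * (a l : ℂ)) P) hU hconv
    (by
      refine ContDiff.contDiffOn ?_
      refine contDiff_ev P (fun p : (Fin n → ℂ) × ℂ => fun l => p.1 l + p.2 * (a l : ℂ)) ?_
      intro i
      have h1 : ContDiff ℂ 1 (fun p : (Fin n → ℂ) × ℂ => p.1 i) :=
        (contDiff_apply ℂ ℂ i).comp contDiff_fst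
      exact h1.add (contDiff_snd.mul contDiff_const))
    (by
      intro K hKU hK M
      obtain ⟨B, hB⟩ := proper (Phi a P) (natDegree_Phi hNI) K hK (fun s hs => hne2 s (hKU hs)) M
      refine ⟨B, fun s hs z hz => hB s hs z ?_⟩
      rw [Phi_eval]
      exact hz)
    (by
      intro s hs z hz hd
      apply hne1 s hs
      rw [hρ1 s z]
      have h1 : (fun z : ℂ => eval (fun l => s l + z * (a l : ℂ)) P) =
          fun z => (Pool.Agent.W565.EC.line s (cx a) P).eval z := by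
        funext z
        rw [Pool.Agent.W565.EC.line_eval]
        rfl
      have h2 : deriv (fun z : ℂ => eval (fun l => s l + z * (a l : ℂ)) P) z =
          eval (fun l => s l + z * (a l : ℂ)) (Dk a P) := by
        rw [h1, Polynomial.deriv, Pool.Agent.W565.EC.line_deriv, Pool.Agent.W565.EC.line_eval]
        rfl
      rw [h2] at hd
      rw [hz, hd]
      ring)
    s₀ hs₀ u hu
  exact ⟨Z, h1, h2, h3⟩

/-- perturbation of `κ` -/
theorem perturb {ρ : MvPolynomial (Fin n) ℂ} (hρ : ρ ≠ 0) (κ : Fin n → ℝ) {η : ℝ} (hη : 0 < η) :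
    ∃ κ' : Fin n → ℝ, (∀ i, |κ' i - κ i| ≤ η) ∧
      eval (fun i => Complex.I * (κ' i : ℂ)) ρ ≠ 0 := by
  by_contra hcon
  push Not at hcon
  apply hρ
  refine MvPolynomial.funext_set
    (s := fun i => (fun t : ℝ => Complex.I * ((κ i + t : ℝ) : ℂ)) '' (Set.Ioo 0 η)) ?_ ?_
  · intro i
    refine (Set.Ioo_infinite hη).image ?_
    intro t _ t' _ h
    simp only at h
    have h1 := mul_left_cancel₀ Complex.I_ne_zero h
    have h2 := Complex.ofReal_injective h1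
    linarith
  · intro x hx
    rw [map_zero]
    choose t ht1 ht2 using fun i => hx i (Set.mem_univ i)
    have h1 := hcon (fun i => κ i + t i) (fun i => by
      have := ht1 i
      rw [Set.mem_Ioo] at this
      rw [abs_le]
      constructor <;> linarith)
    rw [← h1]
    congr 1
    apply congrArg
    funext i
    rw [← ht2 i]

/-! ### analysis near the limit -/

theorem near {q : MvPolynomial (Fin n) ℂ} (a κ : Fin n → ℝ) (ω0 ω1 : ℂ) (hω0 : ω0.re < 0)
    (h0 : eval (fun i => (a i : ℂ) * ω0 + Complex.I * (κ i : ℂ)) q = 0)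
    (h1 : eval (fun i => (a i : ℂ) * ω1 + Complex.I * (κ i : ℂ)) q ≠ 0) :
    ∃ r m η : ℝ, 0 < r ∧ r < - ω0.re ∧ 0 < m ∧ 0 < η ∧
      ∀ z : Fin n → ℂ, ‖z - (fun i => Complex.I * (κ i : ℂ))‖ ≤ η →
        (∀ ω : ℂ, ‖ω - ω0‖ = r → m ≤ ‖eval (fun i => (a i : ℂ) * ω + z i) q‖) ∧
        ‖eval (fun i => (a i : ℂ) * ω0 + z i) q‖ ≤ m / 4 := by
  set zκ : Fin n → ℂ := fun i => Complex.I * (κ i : ℂ) with hzκ
  set L := Pool.Agent.W565.EC.line zκ (cx a) q with hL
  have hLe : ∀ ω : ℂ, L.eval ω = eval (fun i => (a i : ℂ) * ω + Complex.I * (κ i : ℂ)) q := by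
    intro ω
    rw [hL, Pool.Agent.W565.EC.line_eval]
    congr 1
    apply congrArg
    funext i
    simp only [hzκ, cx]
    ring
  have hL0 : L ≠ 0 := by
    intro h
    apply h1
    rw [← hLe, h, Polynomial.eval_zero]
  have hfin : ((fun z => ‖z - ω0‖) '' (L.roots.toFinset : Set ℂ)).Finite :=
    (Finset.finite_toSet _).image _
  obtain ⟨r, hr1, hr2⟩ := (Set.Ioo_infinite (show (0 : ℝ) < - ω0.re by linarith)).exists_notMem_finite
    hfin
  have hG : Continuous (fun p : (Fin n → ℂ) × ℂ => eval (fun i => (a i : ℂ) * p.2 + p.1 i) q) := by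
    refine (MvPolynomial.continuous_eval q).comp (continuous_pi fun i => ?_)
    exact (continuous_const.mul continuous_snd).add ((continuous_apply i).comp continuous_fst)
  have hne : ∀ ω ∈ sphere ω0 r, 0 < ‖eval (fun i => (a i : ℂ) * ω + zκ i) q‖ := by
    intro ω hω
    rw [norm_pos_iff]
    intro h2
    apply hr2
    refine ⟨ω, ?_, by rwa [mem_sphere, dist_eq_norm] at hω⟩
    simp only [Finset.mem_coe, Multiset.mem_toFinset]
    rw [Polynomial.mem_roots hL0, Polynomial.IsRoot.def, hLe]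
    exact h2
  obtain ⟨ωm, hωm, hmin⟩ := (isCompact_sphere ω0 r).exists_isMinOn
    (NormedSpace.sphere_nonempty.2 hr1.1.le)
    (f := fun ω => ‖eval (fun i => (a i : ℂ) * ω + zκ i) q‖)
    (hG.comp (Continuous.prodMk_right zκ)).norm.continuousOn
  set m := ‖eval (fun i => (a i : ℂ) * ωm + zκ i) q‖ / 2 with hm
  have hm0 : 0 < m := half_pos (hne ωm hωm)
  have hev1 : ∀ᶠ z : Fin n → ℂ in 𝓝 zκ, ∀ ω ∈ sphere ω0 r,
      m < ‖eval (fun i => (a i : ℂ) * ω + z i) q‖ := by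
    refine (isCompact_sphere ω0 r).eventually_forall_of_forall_eventually ?_
    intro ω hω
    have h3 : m < ‖eval (fun i => (a i : ℂ) * ω + zκ i) q‖ := by
      have h4 : ‖eval (fun i => (a i : ℂ) * ωm + zκ i) q‖ ≤
        ‖eval (fun i => (a i : ℂ) * ω + zκ i) q‖ := hmin hω
      have h5 := hne ωm hωm
      rw [hm]
      linarith
    exact (hG.norm.tendsto (zκ, ω)).eventually (lt_mem_nhds h3)
  have hev2 : ∀ᶠ z : Fin n → ℂ in 𝓝 zκ, ‖eval (fun i => (a i : ℂ) * ω0 + z i) q‖ < m / 4 := by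
    have h3 : ‖eval (fun i => (a i : ℂ) * ω0 + zκ i) q‖ < m / 4 := by
      rw [h0, norm_zero]
      positivity
    exact ((hG.comp (Continuous.prodMk_left ω0)).norm.tendsto zκ).eventually (gt_mem_nhds h3)
  obtain ⟨η, hη, hη2⟩ := Metric.nhds_basis_closedBall.eventually_iff.1 (hev1.and hev2)
  refine ⟨r, m, η, hr1.1, hr1.2, hm0, hη, fun z hz => ?_⟩
  have h5 := hη2 (x := z) (by rw [mem_closedBall, dist_eq_norm]; exact hz)
  exact ⟨fun ω hω => (h5.1 ω (by rw [mem_sphere, dist_eq_norm]; exact hω)).le, h5.2.le⟩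

theorem near3 {ρ : MvPolynomial (Fin n) ℂ} (z0 : Fin n → ℂ) (h : eval z0 ρ ≠ 0) :
    ∃ m η : ℝ, 0 < m ∧ 0 < η ∧ ∀ z : Fin n → ℂ, ‖z - z0‖ ≤ η → m ≤ ‖eval z ρ‖ := by
  have h1 : ‖eval z0 ρ‖ / 2 < ‖eval z0 ρ‖ := half_lt_self (norm_pos_iff.2 h)
  have h2 : ∀ᶠ z in 𝓝 z0, ‖eval z0 ρ‖ / 2 < ‖eval z ρ‖ :=
    ((MvPolynomial.continuous_eval ρ).norm.tendsto z0).eventually (lt_mem_nhds h1)
  obtain ⟨η, hη, hη2⟩ := Metric.nhds_basis_closedBall.eventually_iff.1 h2
  exact ⟨‖eval z0 ρ‖ / 2, η, half_pos (norm_pos_iff.2 h), hη, fun z hz =>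
    (hη2 (x := z) (by rw [mem_closedBall, dist_eq_norm]; exact hz)).le⟩

/-- the core -/
theorem core {P : MvPolynomial (Fin n) ℂ} {a : Fin n → ℝ} (hNI : NI P a)
    (ρ1 : MvPolynomial (Fin n) ℂ) (α β : MvPolynomial (Option (Fin n)) ℂ)
    (hρ1 : ∀ (u : Fin n → ℂ) (w : ℂ), eval u ρ1 = eval (oe w u) α *
      eval (fun l => u l + w * (a l : ℂ)) P +
      eval (oe w u) β * eval (fun l => u l + w * (a l : ℂ)) (Dk a P))
    (ω0 : ℂ) (κ k : Fin n → ℝ) (cst : ℂ) (r m η lam S : ℝ) (hr : 0 < r) (hm : 0 < m)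
    (hlam : 0 < lam) (hS : 0 < S) (hball : S + Real.pi ≤ η * lam)
    (h1 : ∀ z : Fin n → ℂ, ‖z - (fun i => Complex.I * (κ i : ℂ))‖ ≤ η → ∀ ω : ℂ, ‖ω - ω0‖ = r →
      m ≤ ‖cst * eval (fun i => (lam : ℂ) * ((a i : ℂ) * ω + z i) + Complex.I * (k i : ℂ)) P‖)
    (h2 : ∀ z : Fin n → ℂ, ‖z - (fun i => Complex.I * (κ i : ℂ))‖ ≤ η →
      ‖cst * eval (fun i => (lam : ℂ) * ((a i : ℂ) * ω0 + z i) + Complex.I * (k i : ℂ)) P‖ < m)
    (h3 : ∀ z : Fin n → ℂ, ‖z - (fun i => Complex.I * (κ i : ℂ))‖ ≤ η →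
      eval (fun i => (lam : ℂ) * z i + Complex.I * (k i : ℂ)) ρ1 ≠ 0 ∧
      eval (fun i => (lam : ℂ) * z i + Complex.I * (k i : ℂ)) (Phi a P).leadingCoeff ≠ 0) :
    ∃ (M : Fin n → ℤ) (w : (Fin n → ℂ) → ℂ),
      DifferentiableOn ℂ w (ball (fun l => 2 * Real.pi * Complex.I * (M l : ℂ)) S) ∧
      ∀ u ∈ ball (fun l => 2 * Real.pi * Complex.I * (M l : ℂ) : Fin n → ℂ) S,
        eval (fun l => u l + w u * (a l : ℂ)) P = 0 ∧
        ∃ (ω : ℂ) (z : Fin n → ℂ), ‖ω - ω0‖ < r ∧ ‖z - (fun i => Complex.I * (κ i : ℂ))‖ ≤ η ∧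
          w u = (lam : ℂ) * ω ∧ u = fun i => (lam : ℂ) * z i + Complex.I * (k i : ℂ) := by
  have hlC : (lam : ℂ) ≠ 0 := by exact_mod_cast hlam.ne'
  set M : Fin n → ℤ := fun l => round ((lam * κ l + k l) / (2 * Real.pi)) with hM
  set cc : Fin n → ℂ := fun l => 2 * Real.pi * Complex.I * (M l : ℂ) with hcc
  set zz : (Fin n → ℂ) → Fin n → ℂ := fun u l => (u l - Complex.I * (k l : ℂ)) / lam with hzz
  have hu : ∀ u : Fin n → ℂ, (fun i => (lam : ℂ) * zz u i + Complex.I * (k i : ℂ)) = u := by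
    intro u
    funext i
    simp only [hzz]
    field_simp
    ring
  have hη0 : 0 ≤ η := by
    by_contra hη
    push Not at hη
    nlinarith [Real.pi_pos]
  have hz : ∀ u ∈ ball cc S, ‖zz u - (fun i => Complex.I * (κ i : ℂ))‖ ≤ η := by
    intro u hu1
    rw [mem_ball, dist_eq_norm] at hu1
    rw [pi_norm_le_iff_of_nonneg hη0]
    intro l
    have h4 : (zz u - (fun i => Complex.I * (κ i : ℂ))) l =
        ((u l - cc l) + Complex.I * ((2 * Real.pi * M l - (lam * κ l + k l) : ℝ) : ℂ)) / lam := by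
      simp only [hzz, hcc, Pi.sub_apply]
      field_simp
      push_cast
      ring
    rw [h4, norm_div, Complex.norm_real, Real.norm_of_nonneg hlam.le, div_le_iff₀ hlam]
    refine (norm_add_le _ _).trans (le_trans (add_le_add ?_ ?_) hball)
    · exact (norm_le_pi_norm (u - cc) l).trans hu1.le
    · rw [norm_mul, Complex.norm_I, one_mul, Complex.norm_real, Real.norm_eq_abs]
      have h5 := abs_sub_round ((lam * κ l + k l) / (2 * Real.pi))
      have h6 : 2 * Real.pi * M l - (lam * κ l + k l) =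
          - (2 * Real.pi) * ((lam * κ l + k l) / (2 * Real.pi) -
            round ((lam * κ l + k l) / (2 * Real.pi))) := by
        simp only [hM]
        have := Real.pi_pos
        field_simp
        ring
      rw [h6, abs_mul, abs_neg, abs_of_pos (by positivity : 0 < 2 * Real.pi)]
      nlinarith [Real.pi_pos]
  have hself : cc ∈ ball cc S := mem_ball_self hS
  have hpt : ∀ (u : Fin n → ℂ) (ω : ℂ),
      (fun i => (lam : ℂ) * ((a i : ℂ) * ω + zz u i) + Complex.I * (k i : ℂ)) =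
      fun i => u i + ((lam : ℂ) * ω) * (a i : ℂ) := by
    intro u ω
    funext i
    simp only [hzz]
    field_simp
    ring
  have hcst : cst ≠ 0 := by
    rintro rfl
    have := h1 (zz cc) (hz cc hself) (ω0 + r) (by
      rw [add_sub_cancel_left, Complex.norm_real, Real.norm_of_nonneg hr.le])
    rw [zero_mul, norm_zero] at this
    linarith
  obtain ⟨ωs, hωs, hωs2⟩ := zero_in_disc
    (fun ω => cst * eval (fun i => (lam : ℂ) * ((a i : ℂ) * ω + zz cc i) +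
      Complex.I * (k i : ℂ)) P) (by
      refine ((contDiff_ev P (fun ω : ℂ => fun i => (lam : ℂ) * ((a i : ℂ) * ω + zz cc i) +
      Complex.I * (k i : ℂ)) fun i => ?_).differentiable (by norm_num)).const_mul _
      exact (contDiff_const.mul ((contDiff_const.mul contDiff_id).add contDiff_const)).add
        contDiff_const) ω0 r m hr (h2 _ (hz cc hself)) (h1 _ (hz cc hself))
  have hzero : eval (fun l => cc l + ((lam : ℂ) * ωs) * (a l : ℂ)) P = 0 := by
    rw [← hpt cc ωs]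
    exact (mul_eq_zero.1 hωs2).resolve_left hcst
  obtain ⟨Z, hZ1, hZ2, hZ3⟩ := root hNI (ball cc S) isOpen_ball (convex_ball _ _) cc hself ρ1 α β
    hρ1 (fun s hs => by have := (h3 (zz s) (hz s hs)).1; rwa [hu s] at this)
    (fun s hs => by have := (h3 (zz s) (hz s hs)).2; rwa [hu s] at this) _ hzero
  have hZ4 : ∀ u ∈ ball cc S, ‖Z u / lam - ω0‖ < r := by
    intro u hu1
    by_contra hcon
    push Not at hcon
    have h5 : ContinuousOn (fun u => ‖Z u / lam - ω0‖) (ball cc S) :=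
      ((hZ1.continuousOn.div_const _).sub continuousOn_const).norm
    have h6 : ‖Z cc / lam - ω0‖ < r := by
      rw [hZ2, mul_div_cancel_left₀ _ hlC]
      exact hωs
    obtain ⟨v, hv1, hv2⟩ := (convex_ball cc S).isPreconnected.intermediate_value hself hu1 h5
      ⟨h6.le, hcon⟩
    simp only at hv2
    have h7 := h1 (zz v) (hz v hv1) (Z v / lam) hv2
    rw [hpt v, mul_div_cancel₀ _ hlC, hZ3 v hv1, mul_zero, norm_zero] at h7
    linarith
  refine ⟨M, Z, hZ1, fun u hu1 => ⟨hZ3 u hu1, Z u / lam, zz u, hZ4 u hu1, hz u hu1, ?_, ?_⟩⟩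
  · rw [mul_div_cancel₀ _ hlC]
  · rw [hu u]

end Reg

open Reg

theorem region (h1 : S_elim) (h2 : S_norm) : S_region := by
  intro n P q a hP hlim hstar R hR
  obtain ⟨hq, lam, k, c, hlam, hlim, htame, hconv⟩ := hlim
  unfold Pool.Agent.W996.EC.Star at hstar
  push Not at hstar
  obtain ⟨a', ha', κ, ⟨ω0, hω0, hz0⟩, ⟨ω1, hz1⟩⟩ := hstar
  rw [Set.mem_singleton_iff] at ha'
  subst ha'
  have hNI : NI P a' := ni_of_lim lam k c hconv κ ω0 ω1 hz0 hz1
  obtain ⟨ρ0, α0, β0, hρ0, hE0⟩ := h1 n P R a' hP hNI hR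
  obtain ⟨ρ1, α1, β1, hρ1, hE1⟩ := h1 n P (Dk a' P) a' hP hNI (dk_ndvd hNI)
  have hρ2 : (Phi a' P).leadingCoeff ≠ 0 := by
    rw [Ne, Polynomial.leadingCoeff_eq_zero]
    intro h
    apply natDegree_Phi hNI
    rw [h, Polynomial.natDegree_zero]
  set ρ2 := (Phi a' P).leadingCoeff with hρ2d
  obtain ⟨j0, hj0⟩ := (hlim.eventually_ge_atTop 1).exists_forall_of_atTop
  obtain ⟨φ, c', ρ', D1, hφ, hρ', hconv', hc'⟩ := h2 n (ρ0 * (ρ1 * ρ2)) (fun j => lam (j + j0))
    (fun j => k (j + j0)) (mul_ne_zero hρ0 (mul_ne_zero hρ1 hρ2)) (fun j => hj0 _ (by omega))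
  obtain ⟨r, m, η0, hr, hr2, hm, hη0, hnear⟩ := near a' κ ω0 ω1 hω0 hz0 hz1
  obtain ⟨κ', hκ', hκ2⟩ := perturb hρ' κ (half_pos hη0)
  obtain ⟨m3, η3, hm3, hη3, hnear3⟩ := near3 _ hκ2
  set zκ : Fin n → ℂ := fun i => Complex.I * (κ' i : ℂ) with hzκ
  set η := min η3 (η0 / 2) with hη
  have hηpos : 0 < η := lt_min hη3 (half_pos hη0)
  have hzκκ : ‖zκ - (fun i => Complex.I * (κ i : ℂ))‖ ≤ η0 / 2 := by
    rw [pi_norm_le_iff_of_nonneg (half_pos hη0).le]
    intro i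
    have h3 : (zκ - (fun i => Complex.I * (κ i : ℂ))) i = Complex.I * ((κ' i - κ i : ℝ) : ℂ) := by
      simp only [hzκ, Pi.sub_apply]
      push_cast
      ring
    rw [h3, norm_mul, Complex.norm_I, one_mul, Complex.norm_real]
    exact hκ' i
  have hclose : ∀ z : Fin n → ℂ, ‖z - zκ‖ ≤ η →
      ‖z - (fun i => Complex.I * (κ i : ℂ))‖ ≤ η0 := by
    intro z hz
    calc ‖z - (fun i => Complex.I * (κ i : ℂ))‖
        = ‖(z - zκ) + (zκ - (fun i => Complex.I * (κ i : ℂ)))‖ := by rw [sub_add_sub_cancel]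
      _ ≤ ‖z - zκ‖ + ‖zκ - (fun i => Complex.I * (κ i : ℂ))‖ := norm_add_le _ _
      _ ≤ η0 / 2 + η0 / 2 := add_le_add (hz.trans (min_le_right _ _)) hzκκ
      _ = η0 := by ring
  set B : ℝ := (‖a'‖ + 1) * (‖ω0‖ + r) + ‖zκ‖ + η with hB
  have hBω : ∀ ω : ℂ, ‖ω - ω0‖ ≤ r → ‖ω‖ ≤ ‖ω0‖ + r := by
    intro ω hω
    calc ‖ω‖ = ‖ω0 + (ω - ω0)‖ := by rw [add_sub_cancel]
      _ ≤ ‖ω0‖ + ‖ω - ω0‖ := norm_add_le _ _
      _ ≤ _ := by linarith
  have hBz : ∀ z : Fin n → ℂ, ‖z - zκ‖ ≤ η → ‖z‖ ≤ ‖zκ‖ + η := by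
    intro z hz
    calc ‖z‖ = ‖zκ + (z - zκ)‖ := by rw [add_sub_cancel]
      _ ≤ ‖zκ‖ + ‖z - zκ‖ := norm_add_le _ _
      _ ≤ _ := by linarith
  have ha0 : 0 ≤ ‖a'‖ := norm_nonneg _
  have hω00 : 0 ≤ ‖ω0‖ := norm_nonneg _
  have hzκ0 : 0 ≤ ‖zκ‖ := norm_nonneg _
  have hB0 : 0 ≤ B := by rw [hB]; positivity
  have hB1 : ∀ ω : ℂ, ‖ω - ω0‖ ≤ r → ‖ω‖ ≤ B := by
    intro ω hω
    have := hBω ω hω
    rw [hB]
    nlinarith
  have hB2 : ∀ z : Fin n → ℂ, ‖z - zκ‖ ≤ η → ‖z‖ ≤ B := by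
    intro z hz
    have := hBz z hz
    rw [hB]
    have h3 : 0 ≤ (‖a'‖ + 1) * (‖ω0‖ + r) := by positivity
    linarith
  have hB3 : ∀ (ω : ℂ) (z : Fin n → ℂ), ‖ω - ω0‖ ≤ r → ‖z - zκ‖ ≤ η →
      ‖(fun i => (a' i : ℂ) * ω + z i : Fin n → ℂ)‖ ≤ B := by
    intro ω z hω hz
    rw [pi_norm_le_iff_of_nonneg hB0]
    intro i
    refine (norm_add_le _ _).trans ?_
    rw [norm_mul, Complex.norm_real]
    have h3 := hBω ω hω
    have h4 := (norm_le_pi_norm z i).trans (hBz z hz)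
    have h5 := norm_le_pi_norm a' i
    have h6 : ‖a' i‖ * ‖ω‖ ≤ ‖a'‖ * (‖ω0‖ + r) :=
      mul_le_mul h5 h3 (norm_nonneg _) ha0
    rw [hB]
    nlinarith
  obtain ⟨Dβ, hDβ0, hDβ⟩ := growth β0
  obtain ⟨D12, hD120, hD12⟩ := growth (ρ1 * ρ2)
  refine ⟨max 2 (Dβ + D12 + D1 + 1), fun K => ?_⟩
  set K' : ℝ := max K 1 with hK'
  have hK'1 : 1 ≤ K' := le_max_right _ _
  have hδ : 0 < -(ω0.re + r) := by linarith
  set ψ : ℕ → ℕ := fun j => φ j + j0 with hψ
  have hψt : Tendsto ψ atTop atTop :=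
    tendsto_atTop_mono (fun j => Nat.le_add_right _ _) hφ.tendsto_atTop
  have hconv2 : Conv (fun j => C (c (ψ j)) * tr (lam (ψ j)) (k (ψ j)) P) q := by
    obtain ⟨⟨d, hd⟩, hcc⟩ := hconv
    exact ⟨⟨d, fun j => hd (ψ j)⟩, fun m => (hcc m).comp hψt⟩
  have e1 := unif hconv2 B (show (0 : ℝ) < m / 4 by positivity)
  have e2 := unif hconv' B (show (0 : ℝ) < m3 / 2 by positivity)
  have e3 := hψt.eventually (htame.eventually_ge_atTop
    (max ((K' + 5) / η) (K' / (-(ω0.re + r)))))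
  have e4 := hψt.eventually (hlim.eventually_ge_atTop (max K (max (B + 1) (2 / m3))))
  obtain ⟨j, f1, f2, f3, f4⟩ := (e1.and (e2.and (e3.and e4))).exists
  have f5 : 1 ≤ lam (ψ j) := hj0 _ (by simp only [hψ]; omega)
  have f6 := hc' j
  change ‖c' j‖ ≤ (2 + lam (ψ j) + ‖k (ψ j)‖) ^ D1 at f6
  change ∀ x : Fin n → ℂ, ‖x‖ ≤ B → ‖eval x (C (c' j) * tr (lam (ψ j)) (k (ψ j))
    (ρ0 * (ρ1 * ρ2))) - eval x ρ'‖ ≤ m3 / 2 at f2
  generalize lam (ψ j) = l at *
  generalize k (ψ j) = kk at *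
  generalize c (ψ j) = cs at *
  generalize c' j = cs' at *
  set T : ℝ := 2 + l + ‖kk‖ with hT
  have hkk0 : 0 ≤ ‖kk‖ := norm_nonneg _
  have hT2 : 2 ≤ T := by linarith
  have hTl : l ≤ T := by linarith
  have hTpos : 0 < T := by linarith
  have hlogT : Real.log 2 ≤ Real.log T := Real.log_le_log (by norm_num) hT2
  have hlog2 := Real.log_two_gt_d9
  have hlogpos : 0 < Real.log T := by linarith
  have hl0 : 0 < l := by linarith
  have g1 : K ≤ l := (le_max_left _ _).trans f4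
  have g2 : B + 1 ≤ l := (le_max_left _ _).trans ((le_max_right _ _).trans f4)
  have g3 : 2 / m3 ≤ l := (le_max_right _ _).trans ((le_max_right _ _).trans f4)
  have g4 : (K' + 5) / η * Real.log T ≤ l :=
    (le_div_iff₀ hlogpos).1 ((le_max_left _ _).trans f3)
  have g5 : K' / (-(ω0.re + r)) * Real.log T ≤ l :=
    (le_div_iff₀ hlogpos).1 ((le_max_right _ _).trans f3)
  have g6 : K' * Real.log T + Real.pi ≤ η * l := by
    have h3 : η * ((K' + 5) / η * Real.log T) ≤ η * l := mul_le_mul_of_nonneg_left g4 hηpos.le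
    have h4 : η * ((K' + 5) / η * Real.log T) = (K' + 5) * Real.log T := by
      field_simp
    have h5 := Real.pi_lt_d2
    nlinarith
  have g7 : K' * Real.log T ≤ (-(ω0.re + r)) * l := by
    have h3 : (-(ω0.re + r)) * (K' / (-(ω0.re + r)) * Real.log T) ≤ (-(ω0.re + r)) * l :=
      mul_le_mul_of_nonneg_left g5 hδ.le
    have h4 : (-(ω0.re + r)) * (K' / (-(ω0.re + r)) * Real.log T) = K' * Real.log T := by
      rw [← mul_assoc, mul_div_cancel₀ _ hδ.ne']
    rw [h4] at h3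
    exact h3
  have hKlog : K * Real.log T ≤ K' * Real.log T :=
    mul_le_mul_of_nonneg_right (le_max_left _ _) hlogpos.le
  -- lower bound of `ρ`
  have hρlow : ∀ z : Fin n → ℂ, ‖z - zκ‖ ≤ η →
      m3 / 2 ≤ T ^ D1 * ‖eval (fun i => (l : ℂ) * z i + Complex.I * (kk i : ℂ))
        (ρ0 * (ρ1 * ρ2))‖ := by
    intro z hz
    have h3 := f2 z (hB2 z hz)
    have h4 := hnear3 z (hz.trans (min_le_left _ _))
    rw [map_mul, eval_C, eval_tr] at h3
    have h5 : ‖eval z ρ'‖ ≤ ‖cs' * eval (fun i => (l : ℂ) * z i + Complex.I * (kk i : ℂ))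
        (ρ0 * (ρ1 * ρ2))‖ + m3 / 2 := by
      calc ‖eval z ρ'‖ = ‖cs' * eval (fun i => (l : ℂ) * z i + Complex.I * (kk i : ℂ))
              (ρ0 * (ρ1 * ρ2)) - (cs' * eval (fun i => (l : ℂ) * z i + Complex.I * (kk i : ℂ))
              (ρ0 * (ρ1 * ρ2)) - eval z ρ')‖ := by rw [sub_sub_cancel]
        _ ≤ _ := (norm_sub_le _ _).trans (add_le_add le_rfl h3)
    rw [norm_mul] at h5
    have h6 := mul_le_mul_of_nonneg_right f6 (norm_nonneg
      (eval (fun i => (l : ℂ) * z i + Complex.I * (kk i : ℂ)) (ρ0 * (ρ1 * ρ2))))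
    linarith
  have hρne : ∀ z : Fin n → ℂ, ‖z - zκ‖ ≤ η →
      eval (fun i => (l : ℂ) * z i + Complex.I * (kk i : ℂ)) (ρ0 * (ρ1 * ρ2)) ≠ 0 := by
    intro z hz h3
    have h4 := hρlow z hz
    rw [h3, norm_zero, mul_zero] at h4
    linarith
  obtain ⟨M, w, hw1, hw2⟩ := core hNI ρ1 α1 β1 hE1 ω0 κ' kk cs r (3 * m / 4) η l
    (K' * Real.log T) hr (by positivity) hl0 (by positivity) g6
    (by
      intro z hz ω hω
      have h3 := f1 _ (hB3 ω z hω.le hz)
      have h4 := (hnear z (hclose z hz)).1 ω hω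
      rw [map_mul, eval_C, eval_tr] at h3
      have h5 := norm_sub_norm_le (eval (fun i => (a' i : ℂ) * ω + z i) q)
        (cs * eval (fun i => (l : ℂ) * ((a' i : ℂ) * ω + z i) + Complex.I * (kk i : ℂ)) P)
      rw [norm_sub_rev] at h5
      linarith)
    (by
      intro z hz
      have h3 := f1 _ (hB3 ω0 z (by rw [sub_self, norm_zero]; exact hr.le) hz)
      have h4 := (hnear z (hclose z hz)).2
      rw [map_mul, eval_C, eval_tr] at h3
      have h5 := norm_sub_norm_le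
        (cs * eval (fun i => (l : ℂ) * ((a' i : ℂ) * ω0 + z i) + Complex.I * (kk i : ℂ)) P)
        (eval (fun i => (a' i : ℂ) * ω0 + z i) q)
      linarith)
    (by
      intro z hz
      have h3 := hρne z hz
      rw [map_mul, map_mul] at h3
      exact ⟨left_ne_zero_of_mul (right_ne_zero_of_mul h3),
        right_ne_zero_of_mul (right_ne_zero_of_mul h3)⟩)
  refine ⟨T, g1.trans hTl, hT2, M, w, hw1.mono (ball_subset_ball hKlog), fun u hu => ?_⟩
  obtain ⟨h3, ω, z, h4, h5, h6, h7⟩ := hw2 u (ball_subset_ball hKlog hu)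
  have hT21 : (l + 0) * B + ‖kk‖ ≤ T ^ 2 := by
    have h8 : B ≤ T - 1 := by linarith
    nlinarith
  have hnu : ‖u‖ ≤ T ^ 2 := by
    rw [h7, pi_norm_le_iff_of_nonneg (by positivity)]
    intro i
    refine (norm_add_le _ _).trans ?_
    rw [norm_mul, norm_mul, Complex.norm_I, one_mul, Complex.norm_real, Complex.norm_real,
      Real.norm_of_nonneg hl0.le]
    have h8 := (norm_le_pi_norm z i).trans (hB2 z h5)
    have h9 := norm_le_pi_norm kk i
    nlinarith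
  have hnw : ‖w u‖ ≤ T ^ 2 := by
    rw [h6, norm_mul, Complex.norm_real, Real.norm_of_nonneg hl0.le]
    have h8 := hB1 ω h4.le
    nlinarith
  have hpt : (fun i => u i + w u * (a' i : ℂ)) =
      fun i => (l : ℂ) * ((a' i : ℂ) * ω + z i) + Complex.I * (kk i : ℂ) := by
    funext i
    rw [h6, congrFun h7 i]
    ring
  have hnx : ‖(fun i => u i + w u * (a' i : ℂ) : Fin n → ℂ)‖ ≤ T ^ 2 := by
    rw [hpt, pi_norm_le_iff_of_nonneg (by positivity)]
    intro i
    refine (norm_add_le _ _).trans ?_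
    rw [norm_mul, norm_mul, Complex.norm_I, one_mul, Complex.norm_real, Complex.norm_real,
      Real.norm_of_nonneg hl0.le]
    have h8 := (norm_le_pi_norm (fun i => (a' i : ℂ) * ω + z i : Fin n → ℂ) i).trans
      (hB3 ω z h4.le h5)
    have h9 := norm_le_pi_norm kk i
    nlinarith
  refine ⟨h3, ?_, ?_, ?_⟩
  · rw [h6, Complex.re_ofReal_mul]
    have h8 : ω.re ≤ ω0.re + r := by
      have h9 : (ω - ω0).re ≤ ‖ω - ω0‖ := Complex.re_le_norm _
      rw [Complex.sub_re] at h9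
      linarith
    nlinarith
  · refine hnx.trans ?_
    rw [← Real.rpow_natCast]
    exact Real.rpow_le_rpow_of_exponent_le (by linarith) (by
      push_cast
      exact le_max_left _ _)
  · have h8 := hE0 u (w u)
    rw [h3, mul_zero, zero_add] at h8
    have h9 := hρlow z h5
    rw [← h7, map_mul, h8, norm_mul, norm_mul] at h9
    have h10 : ‖eval (oe (w u) u) β0‖ ≤ T ^ Dβ := by
      refine hDβ T hT2 _ ?_
      rw [pi_norm_le_iff_of_nonneg (by positivity)]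
      intro i
      rcases i with _ | i
      · exact hnw
      · exact (norm_le_pi_norm u i).trans hnu
    have h11 : ‖eval u (ρ1 * ρ2)‖ ≤ T ^ D12 := hD12 T hT2 u hnu
    set X := ‖eval (fun l => u l + w u * (a' l : ℂ)) R‖ with hX
    have hX0 : 0 ≤ X := norm_nonneg _
    have h12 : m3 / 2 ≤ T ^ (D1 + Dβ + D12) * X := by
      refine h9.trans ?_
      rw [Real.rpow_add hTpos, Real.rpow_add hTpos]
      have h13 : ‖eval (oe (w u) u) β0‖ * X * ‖eval u (ρ1 * ρ2)‖ ≤ T ^ Dβ * X * T ^ D12 := by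
        gcongr
      calc T ^ D1 * (‖eval (oe (w u) u) β0‖ * X * ‖eval u (ρ1 * ρ2)‖)
          ≤ T ^ D1 * (T ^ Dβ * X * T ^ D12) := by gcongr
        _ = T ^ D1 * T ^ Dβ * T ^ D12 * X := by ring
    have h14 : 1 ≤ T * (m3 / 2) := by
      have h15 : 2 / m3 ≤ T := g3.trans hTl
      rw [div_le_iff₀ hm3] at h15
      linarith
    have h16 : 1 ≤ T ^ (Dβ + D12 + D1 + 1) * X := by
      calc (1 : ℝ) ≤ T * (m3 / 2) := h14
        _ ≤ T * (T ^ (D1 + Dβ + D12) * X) := by gcongr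
        _ = T ^ (Dβ + D12 + D1 + 1) * X := by
            rw [show Dβ + D12 + D1 + 1 = (D1 + Dβ + D12) + 1 by ring, Real.rpow_add_one hTpos.ne']
            ring
    rw [Real.rpow_neg hTpos.le, inv_le_iff_one_le_mul₀ (by positivity)]
    refine h16.trans ?_
    rw [mul_comm X]
    refine mul_le_mul_of_nonneg_right ?_ hX0
    exact Real.rpow_le_rpow_of_exponent_le (by linarith) (le_max_right _ _)

end Pool.Agent.Q251.EG
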